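import Pool.Agent.H13R3.PI.Fin66

/-!
# Lemoine's representation `n = p + 2q` with `q` in every interval, for thin families

For almost all members `n` of every family of odd integers up to `N` whose additive energy of
some order `h` is nearly minimal, `n = p + 2q` with primes `p` and `q`; in fact every interval of
length `N / (log N) ^ K` inside `[1, n / 2)` contains at least `N / (20 (log N) ^ (K+2))` primes `q`
with `n - 2q` prime.
-/

set_option autoImplicit false

namespace Pool.Agent.Results.MP_662920_nt.EveryInterval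

open Finset

/-- the additive energy of order `h` of the family `s 1, ..., s x`: the number of solutions of
`s (v 1) + ... + s (v h) = s (w 1) + ... + s (w h)` with all `v i`, `w i` in `{1, ..., x}` -/
def energy (h x : ℕ) (s : ℕ → ℕ) : ℕ :=
  (((Fintype.piFinset fun _ : Fin h => Icc 1 x) ×ˢ (Fintype.piFinset fun _ : Fin h => Icc 1 x)).filter
    (fun q => ∑ i, s (q.1 i) = ∑ i, s (q.2 i))).card

/-- the number of primes `q` with `B < q ≤ A` such that `n - 2 * q` is prime (`2 * A < n`) -/
def count (n B A : ℕ) : ℕ := ((Ioc B A).filter (fun q => q.Prime ∧ (n - 2 * q).Prime)).card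

/-- the odd integer `n` is `p + 2q` with primes `p` and `q`, and
`count n B A ≥ N / (20 (log N) ^ (K+2))` for all `B ≤ A < n / 2` with `A - B ≥ N / (log N) ^ K` -/
def Good (N K n : ℕ) : Prop :=
  (∀ B A : ℕ, B ≤ A → 2 * A < n → (N : ℝ) / Real.log N ^ K ≤ (A : ℝ) - B →
    (N : ℝ) / (20 * Real.log N ^ (K + 2)) ≤ count n B A) ∧
  ∃ p q : ℕ, p.Prime ∧ q.Prime ∧ n = p + 2 * q

open Classical in
/-- the number of `m ∈ {1, ..., x}` for which `s m` is not good -/
noncomputable def exceptions (N K x : ℕ) (s : ℕ → ℕ) : ℕ :=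
  ((Icc 1 x).filter (fun m => ¬ Good N K (s m))).card

lemma energy_eq (h x : ℕ) (s : ℕ → ℕ) :
    Pool.Agent.H373R2.T7.energy h x (fun m => (s m : ℤ)) = energy h x s := by
  unfold Pool.Agent.H373R2.T7.energy energy
  congr 1
  apply filter_congr
  intro q _
  simp only
  rw [← Nat.cast_sum, ← Nat.cast_sum]
  exact Nat.cast_inj

/-- For all `h ≥ 1`, `C`, `U`, `K` and all large `N`: if `s 1, ..., s x` are odd integers in `[1, N]`
whose additive energy of order `h` is at most `(log N) ^ C * x ^ (2h) / N`, then all but at most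
`x / (log N) ^ U` of them are good. -/
theorem result (h C U K : ℕ) (hh : 1 ≤ h) : ∃ N₀ : ℕ, ∀ N : ℕ, N₀ ≤ N → ∀ (x : ℕ) (s : ℕ → ℕ),
    (∀ m ∈ Icc 1 x, Odd (s m) ∧ 1 ≤ s m ∧ s m ≤ N) →
    (energy h x s : ℝ) * N ≤ Real.log N ^ C * (x : ℝ) ^ (2 * h) →
    (exceptions N K x s : ℝ) ≤ x / Real.log N ^ U := by
  classical
  obtain ⟨N₀, h0⟩ := Pool.Agent.H13R3.PI.final66 h C U K hh
  refine ⟨N₀, fun N hN x s hs hE => ?_⟩
  obtain ⟨S, hS1, hS2⟩ := h0 N hN x s (fun m hm => by
    obtain ⟨c1, c2, c3⟩ := hs m hm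
    refine ⟨?_, c2, c3⟩
    obtain ⟨c, hc⟩ := c1
    omega) (by rw [energy_eq]; exact hE)
  refine le_trans ?_ hS1
  have hsub : (Icc 1 x).filter (fun m => ¬ Good N K (s m)) ⊆ S := by
    intro m hm
    rw [mem_filter] at hm
    by_contra hmS
    apply hm.2
    obtain ⟨g1, g2⟩ := hS2 m hm.1 hmS
    refine ⟨fun B A hBA hA hlen => ?_, g2⟩
    refine (g1 B A hBA hA hlen).trans ?_
    have e : (Icc (B + 1) A).filter (fun p => p.Prime ∧ (s m - 2 * p).Prime) =
        (Ioc B A).filter (fun p => p.Prime ∧ (s m - 2 * p).Prime) := by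
      have e0 : Icc (B + 1) A = Ioc B A := by
        ext a
        rw [mem_Icc, mem_Ioc]
        omega
      rw [e0]
    exact le_of_eq (by unfold count; rw [e])
  exact_mod_cast card_le_card hsub

end Pool.Agent.Results.MP_662920_nt.EveryInterval
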